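import Pool.Agent.Y728.MN.Def

/-!
# Project MN (helper728): `StmtB`, pairs with given quotient
-/

set_option autoImplicit false

namespace Pool.Agent.Y841.MN

open NumberField IsDedekindDomain Height Finset Pool.Agent.H691R3 Pool.Agent.H951R3.V
open Pool.Agent.Y728.MN

variable {K : Type} [Field K] [NumberField K]

theorem fv_pos (v : HeightOneSpectrum (𝓞 K)) {x : K} (hx : x ≠ 0) : 0 < fv v x := by
  obtain ⟨n, hn⟩ := fv_zpow v hx
  rw [hn]
  exact zpow_pos (by linarith [two_le_Nv v]) n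

/-- a prime with `fv v x < 1` has `- log (fv v x) ≥ ell v` -/
theorem ell_le_neg_log (v : HeightOneSpectrum (𝓞 K)) {x : K} (hx : x ≠ 0) (h : fv v x < 1) :
    ell v ≤ -Real.log (fv v x) := by
  have h1 : Real.log (fv v x) < 0 := Real.log_neg (fv_pos v hx) h
  have h2 := abs_log_eq_val v hx
  rw [abs_of_neg h1] at h2
  have h3 : val v x ≠ 0 := by
    intro h0
    rw [h0, Int.cast_zero, abs_zero, zero_mul] at h2
    linarith
  have h4 : (1 : ℝ) ≤ |(val v x : ℝ)| := by
    have := Int.one_le_abs h3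
    exact_mod_cast this
  rw [h2]
  nlinarith [ell_pos v]

theorem zr_ne_one {x : K} {v : HeightOneSpectrum (𝓞 K)} (h : v ∈ zr x) : fv v x ≠ 1 :=
  (mem_zr.1 h).2.ne

theorem mem_zr_inv {x : K} (hx : x ≠ 0) {v : HeightOneSpectrum (𝓞 K)} :
    v ∈ zr x⁻¹ ↔ 1 < fv v x := by
  rw [mem_zr, map_inv₀]
  constructor
  · intro h
    by_contra h1
    push Not at h1
    have h2 := one_le_inv_iff₀.2 ⟨fv_pos v hx, h1⟩
    linarith [h.2]
  · intro h
    exact ⟨inv_ne_zero hx, inv_lt_one_of_one_lt₀ h⟩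

theorem posLog_eq (y : ℝ) : Real.posLog y = max 0 (Real.log y) := rfl

/-- `nu x` as a sum over an arbitrary set of primes which contains the zeros -/
theorem nu_eq {x : K} (hx : x ≠ 0) {T : Finset (HeightOneSpectrum (𝓞 K))} (hT : zr x ⊆ T) :
    nu x = ∑ v ∈ T, max 0 (-Real.log (fv v x)) := by
  unfold nu
  rw [← Finset.sum_subset hT (f := fun v => max 0 (-Real.log (fv v x)))]
  · refine Finset.sum_congr rfl fun v hv => ?_
    have h := (mem_zr.1 hv).2
    have h1 := Real.log_neg (fv_pos v hx) h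
    rw [max_eq_right (by linarith)]
  · intro v _ hv
    have h : 1 ≤ fv v x := by
      by_contra h1
      push Not at h1
      exact hv (mem_zr.2 ⟨hx, h1⟩)
    have h1 := Real.log_nonneg h
    rw [max_eq_left (by linarith)]

theorem nu_le {x : K} (hx : x ≠ 0) : nu x ≤ logHeight₁ x := by
  rw [nu_eq hx (Finset.Subset.refl _), ← logHeight₁_inv']
  refine le_trans (Finset.sum_le_sum fun v _ => ?_) (sum_posLog_le (inv_ne_zero hx) (zr x))
  rw [posLog_eq, map_inv₀, Real.log_inv]

theorem wt_zr_le_nu (x : K) : wt (zr x) ≤ nu x := by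
  refine Finset.sum_le_sum fun v hv => ?_
  have h := mem_zr.1 hv
  exact ell_le_neg_log v h.1 h.2

/-- the local inequality -/
theorem local_le {a b l : ℝ} (c : Prop) [Decidable c]
    (h : c → (l ≤ a ∧ l ≤ b) ∨ (l ≤ -a ∧ l ≤ -b)) (hl : 0 ≤ l) :
    max 0 (a - b) + (if c then l else 0) ≤ max 0 a + max 0 (-b) := by
  split_ifs with hc
  · rcases h hc with ⟨h1, h2⟩ | ⟨h1, h2⟩
    · have e1 : max 0 a = a := max_eq_right (by linarith)
      rcases le_total 0 (a - b) with h3 | h3
      · rw [max_eq_right h3, e1]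
        have := le_max_left 0 (-b)
        linarith
      · rw [max_eq_left h3, e1]
        have := le_max_left 0 (-b)
        linarith
    · have e1 : max 0 (-b) = -b := max_eq_right (by linarith)
      rcases le_total 0 (a - b) with h3 | h3
      · rw [max_eq_right h3, e1]
        have := le_max_left 0 a
        linarith
      · rw [max_eq_left h3, e1]
        have := le_max_left 0 a
        linarith
  · rw [add_zero]
    refine max_le ?_ ?_
    · have h1 := le_max_left 0 a
      have h2 := le_max_left 0 (-b)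
      linarith
    · have h1 := le_max_right 0 a
      have h2 := le_max_right 0 (-b)
      linarith

open Classical in
/-- the primes at which `x` and `y` both have a zero or both have a pole -/
noncomputable def UU (x y : K) : Finset (HeightOneSpectrum (𝓞 K)) :=
  (zr x ∩ zr y) ∪ (zr x⁻¹ ∩ zr y⁻¹)

open Classical in
theorem nu_add_wt {x y : K} (hx : x ≠ 0) (hy : y ≠ 0) :
    nu (x / y) + wt (UU x y) ≤ logHeight₁ x + logHeight₁ y := by
  have hz : x / y ≠ 0 := div_ne_zero hx hy
  set T : Finset (HeightOneSpectrum (𝓞 K)) := zr (x / y) ∪ UU x y with hT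
  have e1 : nu (x / y) = ∑ v ∈ T, max 0 (-Real.log (fv v x) - -Real.log (fv v y)) := by
    rw [nu_eq hz (T := T) Finset.subset_union_left]
    refine Finset.sum_congr rfl fun v _ => ?_
    rw [map_div₀, Real.log_div (fv_pos v hx).ne' (fv_pos v hy).ne']
    congr 1
    ring
  have e2 : wt (UU x y) = ∑ v ∈ T, if v ∈ UU x y then ell v else 0 := by
    unfold Pool.Agent.Y728.MN.wt
    rw [← Finset.sum_filter]
    refine Finset.sum_congr ?_ fun _ _ => rfl
    ext v
    rw [Finset.mem_filter, hT, Finset.mem_union]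
    tauto
  have h1 : ∑ v ∈ T, max 0 (-Real.log (fv v x)) ≤ logHeight₁ x := by
    rw [← logHeight₁_inv']
    refine le_trans (Finset.sum_le_sum fun v _ => ?_) (sum_posLog_le (inv_ne_zero hx) T)
    rw [posLog_eq, map_inv₀, Real.log_inv]
  have h2 : ∑ v ∈ T, max 0 (-(-Real.log (fv v y))) ≤ logHeight₁ y := by
    refine le_trans (Finset.sum_le_sum fun v _ => ?_) (sum_posLog_le hy T)
    rw [posLog_eq, neg_neg]
  rw [e1, e2, ← Finset.sum_add_distrib]
  refine le_trans (Finset.sum_le_sum fun v _ => ?_) (le_of_eq_of_le Finset.sum_add_distrib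
    (add_le_add h1 h2))
  refine local_le _ (fun hv => ?_) (ell_pos v).le
  unfold UU at hv
  rw [Finset.mem_union, Finset.mem_inter, Finset.mem_inter] at hv
  rcases hv with ⟨h3, h4⟩ | ⟨h3, h4⟩
  · left
    exact ⟨ell_le_neg_log v hx (mem_zr.1 h3).2, ell_le_neg_log v hy (mem_zr.1 h4).2⟩
  · right
    have h5 := ell_le_neg_log v (mem_zr.1 h3).1 (mem_zr.1 h3).2
    have h6 := ell_le_neg_log v (mem_zr.1 h4).1 (mem_zr.1 h4).2
    rw [map_inv₀, Real.log_inv] at h5 h6
    exact ⟨h5, h6⟩

theorem UU_comm (x y : K) : UU x y = UU y x := by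
  classical
  unfold UU
  rw [Finset.inter_comm, Finset.inter_comm (zr x⁻¹)]

/-- **MB.** -/
theorem sB (K : Type) [Field K] [NumberField K] : StmtB K := by
  classical
  intro δ hδ
  obtain ⟨C1, hC1, h1⟩ := set_count (K := K) (δ := δ / 9) (by positivity)
  obtain ⟨C2, hC2, h2⟩ := funit_count (K := K) (δ := δ / 9) (by positivity)
  refine ⟨C1 * (C2 + 1), by positivity, fun Y hY z hz E hE => ?_⟩
  rcases E.eq_empty_or_nonempty with rfl | ⟨x₀, hx₀⟩
  · rw [Finset.card_empty, Nat.cast_zero]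
    positivity
  set m : ℝ := max (nu z) (nu z⁻¹) with hm
  set s : Finset (HeightOneSpectrum (𝓞 K)) := zr z ∪ zr z⁻¹ with hs
  -- the basic inequalities
  have hU : ∀ x ∈ E, wt (UU x (x / z)) ≤ 2 * Y - m := by
    intro x hx
    obtain ⟨hx0, hxY, hyY⟩ := hE x hx
    have hy0 : x / z ≠ 0 := div_ne_zero hx0 hz
    have e1 : x / (x / z) = z := by field_simp
    have e2 : x / z / x = z⁻¹ := by field_simp
    have h3 := nu_add_wt hx0 hy0
    have h4 := nu_add_wt hy0 hx0
    rw [e1] at h3
    rw [e2, UU_comm] at h4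
    rcases max_cases (nu z) (nu z⁻¹) with h5 | h5
    · rw [hm, h5.1]; linarith
    · rw [hm, h5.1]; linarith
  have hwt0 : ∀ F : Finset (HeightOneSpectrum (𝓞 K)), 0 ≤ wt F := fun F =>
    Finset.sum_nonneg fun v _ => (ell_pos v).le
  have hG0 : 0 ≤ 2 * Y - m := (hwt0 _).trans (hU x₀ hx₀)
  have hm0 : 0 ≤ m := by
    rw [hm]
    refine le_max_of_le_left ((hwt0 _).trans (wt_zr_le_nu z))
  have hsw : wt s ≤ 4 * Y := by
    have h3 : wt s ≤ 2 * logHeight₁ z := by
      refine weight_le hz s fun v hv => ?_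
      rw [hs, Finset.mem_union] at hv
      rcases hv with hv | hv
      · exact zr_ne_one hv
      · exact ((mem_zr_inv hz).1 hv).ne'
    obtain ⟨hx0, hxY, hyY⟩ := hE x₀ hx₀
    have e1 : z = x₀ * (x₀ / z)⁻¹ := by field_simp
    have h4 : logHeight₁ z ≤ logHeight₁ x₀ + logHeight₁ (x₀ / z) := by
      conv_lhs => rw [e1]
      refine (logHeight₁_mul_le _ _).trans ?_
      rw [logHeight₁_inv']
    linarith
  -- the sets
  have hcount : ((E.image fun x => UU x (x / z)).card : ℝ) ≤
      C1 * Real.exp ((1 + δ / 9) * (2 * Y - m)) := by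
    refine h1 _ _ fun U hU' => ?_
    obtain ⟨x, hx, rfl⟩ := Finset.mem_image.1 hU'
    exact hU x hx
  set G : ℕ := ⌊C2 * Real.exp (δ / 9 * (7 * Y))⌋₊ with hG
  have hfib : ∀ U ∈ E.image (fun x => UU x (x / z)),
      (E.filter (fun x => UU x (x / z) = U)).card ≤ G := by
    intro U hU'
    obtain ⟨x₁, hx₁, rfl⟩ := Finset.mem_image.1 hU'
    refine Nat.le_floor ?_
    have h3 := h2 (s ∪ UU x₁ (x₁ / z)) Y hY (E.filter fun x => UU x (x / z) = UU x₁ (x₁ / z)) ?_
    · refine h3.trans (mul_le_mul_of_nonneg_left (Real.exp_le_exp.2 ?_) hC2.le)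
      refine mul_le_mul_of_nonneg_left ?_ (by positivity)
      have h4 : ∑ v ∈ s ∪ UU x₁ (x₁ / z), ell v ≤ wt s + wt (UU x₁ (x₁ / z)) := by
        unfold Pool.Agent.Y728.MN.wt
        rw [← Finset.sum_union_inter]
        have : 0 ≤ ∑ v ∈ s ∩ UU x₁ (x₁ / z), ell v := hwt0 _
        linarith
      have h5 := hU x₁ hx₁
      linarith
    · intro x hx
      rw [Finset.mem_filter] at hx
      obtain ⟨hx0, hxY, hyY⟩ := hE x hx.1
      have hy0 : x / z ≠ 0 := div_ne_zero hx0 hz
      refine ⟨hx0, hxY, fun v hv => ?_⟩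
      rw [← hx.2, Finset.mem_union, not_or, hs, Finset.mem_union, not_or] at hv
      obtain ⟨⟨hv1, hv2⟩, hv3⟩ := hv
      have hz1 : fv v z = 1 := by
        refine le_antisymm ?_ ?_
        · by_contra h3
          push Not at h3
          exact hv2 ((mem_zr_inv hz).2 h3)
        · by_contra h3
          push Not at h3
          exact hv1 (mem_zr.2 ⟨hz, h3⟩)
      have hxy : fv v (x / z) = fv v x := by rw [map_div₀, hz1, div_one]
      unfold UU at hv3
      rw [Finset.mem_union, Finset.mem_inter, Finset.mem_inter, not_or] at hv3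
      obtain ⟨hv4, hv5⟩ := hv3
      refine le_antisymm ?_ ?_
      · by_contra h3
        push Not at h3
        exact hv5 ⟨(mem_zr_inv hx0).2 h3, (mem_zr_inv hy0).2 (by rw [hxy]; exact h3)⟩
      · by_contra h3
        push Not at h3
        exact hv4 ⟨mem_zr.2 ⟨hx0, h3⟩, mem_zr.2 ⟨hy0, by rw [hxy]; exact h3⟩⟩
  have hcard := Finset.card_le_mul_card_image_of_maps_to (s := E)
    (t := E.image fun x => UU x (x / z)) (f := fun x => UU x (x / z))
    (fun u hu => Finset.mem_image_of_mem _ hu) G hfib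
  have hG2 : (G : ℝ) ≤ C2 * Real.exp (δ / 9 * (7 * Y)) := Nat.floor_le (by positivity)
  calc (E.card : ℝ) ≤ (G : ℝ) * ((E.image fun x => UU x (x / z)).card : ℝ) := by
        exact_mod_cast hcard
    _ ≤ (C2 * Real.exp (δ / 9 * (7 * Y))) * (C1 * Real.exp ((1 + δ / 9) * (2 * Y - m))) :=
        mul_le_mul hG2 hcount (Nat.cast_nonneg _) (by positivity)
    _ = (C1 * C2) * Real.exp (δ / 9 * (7 * Y) + (1 + δ / 9) * (2 * Y - m)) := by
        rw [Real.exp_add]; ring
    _ ≤ (C1 * (C2 + 1)) * Real.exp ((2 + δ) * Y - m) := by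
        refine mul_le_mul ?_ (Real.exp_le_exp.mpr ?_) (Real.exp_pos _).le (by positivity)
        · nlinarith
        · nlinarith

end Pool.Agent.Y841.MN
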